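import Pool.Agent.H586.AF.A

/-!
# Project AF (helper586), task AF-I (helper245): the logarithm, magnetic part

`theorem ti (hH : S_H) : S_I`.  Method: `|a b c d - M| ≤ K L² u(t) u(s)` on the quadrant, where `M` is
`L⁴/(4π²) t s/(1 + t + s)⁴` on the square of side `L²` and `0` outside, and `∫ u = I₀ L`; the integral of
`M` is computed by antiderivatives.
-/

set_option autoImplicit false

open MeasureTheory Set Filter Topology
open Pool.Agent.H586.AF

namespace Pool.Agent.H245.AF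

noncomputable section


/-- `(1 + t) ^ (-3/2)` -/
def gf (t : ℝ) : ℝ := (1 + t) ^ (-(3 / 2) : ℝ)

/-- the scaled weight -/
def vf (x : ℝ) : ℝ :=
  x ^ (-(3 / 4) : ℝ) * Real.exp (-(1 / 2) * x) + x ^ (-(1 / 2) : ℝ) * Real.exp (-(1 / 2) * x) +
    Real.exp (-(1 / 2) * x)

/-- the weight -/
def uf (L : ℝ) (t : ℝ) : ℝ := L * gf t + 1 / L * vf (1 / L ^ 2 * t)

lemma gf_nonneg {t : ℝ} (ht : 0 ≤ t) : 0 ≤ gf t := Real.rpow_nonneg (by linarith) _

lemma vf_nonneg {x : ℝ} (hx : 0 ≤ x) : 0 ≤ vf x := by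
  rw [vf]
  have h1 := Real.rpow_nonneg hx (-(3 / 4))
  have h2 := Real.rpow_nonneg hx (-(1 / 2))
  positivity

lemma uf_nonneg {L t : ℝ} (hL : 0 < L) (ht : 0 ≤ t) : 0 ≤ uf L t := by
  have h1 := gf_nonneg ht
  have h2 := vf_nonneg (x := 1 / L ^ 2 * t) (by positivity)
  rw [uf]
  positivity

lemma gf_int : IntegrableOn gf (Ioi 0) := by
  have h := integrableOn_add_rpow_Ioi_of_lt (a := -(3 / 2)) (c := 0) (m := 1) (by norm_num)
    (by norm_num)
  refine h.congr_fun ?_ measurableSet_Ioi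
  intro t _
  simp only [gf]
  rw [add_comm]

lemma rpow_exp_int (s : ℝ) (hs : -1 < s) :
    IntegrableOn (fun x : ℝ => x ^ s * Real.exp (-(1 / 2) * x)) (Ioi 0) := by
  have h := integrableOn_rpow_mul_exp_neg_mul_rpow (p := 1) (s := s) (b := 1 / 2) hs zero_lt_one
    (by norm_num)
  refine h.congr_fun ?_ measurableSet_Ioi
  intro x _
  simp only [Real.rpow_one]

lemma vf_int : IntegrableOn vf (Ioi 0) := by
  have h1 := rpow_exp_int (-(3 / 4)) (by norm_num)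
  have h2 := rpow_exp_int (-(1 / 2)) (by norm_num)
  have h3 : IntegrableOn (fun x : ℝ => Real.exp (-(1 / 2) * x)) (Ioi 0) := by
    refine (rpow_exp_int 0 (by norm_num)).congr_fun ?_ measurableSet_Ioi
    intro x _
    simp only [Real.rpow_zero, one_mul]
  exact (h1.add h2).add h3

lemma uf_int {L : ℝ} (hL : 0 < L) : IntegrableOn (uf L) (Ioi 0) := by
  have h1 : IntegrableOn (fun t => vf (1 / L ^ 2 * t)) (Ioi 0) := by
    rw [integrableOn_Ioi_comp_mul_left_iff vf 0 (by positivity : 0 < 1 / L ^ 2), mul_zero]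
    exact vf_int
  exact (gf_int.const_mul L).add (h1.const_mul (1 / L))

lemma uf_integral {L : ℝ} (hL : 0 < L) :
    ∫ t in Ioi (0 : ℝ), uf L t = L * ((∫ t in Ioi (0 : ℝ), gf t) + ∫ t in Ioi (0 : ℝ), vf t) := by
  have h1 : IntegrableOn (fun t => vf (1 / L ^ 2 * t)) (Ioi 0) := by
    rw [integrableOn_Ioi_comp_mul_left_iff vf 0 (by positivity : 0 < 1 / L ^ 2), mul_zero]
    exact vf_int
  have h2 := integral_comp_mul_left_Ioi vf 0 (by positivity : 0 < 1 / L ^ 2)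
  rw [mul_zero, smul_eq_mul] at h2
  have h3 : ∫ t in Ioi (0 : ℝ), uf L t =
      L * (∫ t in Ioi (0 : ℝ), gf t) + 1 / L * ∫ t in Ioi (0 : ℝ), vf (1 / L ^ 2 * t) := by
    simp only [uf]
    rw [integral_add (gf_int.const_mul L) (h1.const_mul (1 / L)), integral_const_mul,
      integral_const_mul]
  rw [h3, h2]
  field_simp

/-! ### Lower bounds -/

lemma exp_half {L t : ℝ} (hL : 0 < L) (ht : t ≤ L ^ 2) :
    1 / 2 ≤ Real.exp (-(1 / 2) * (1 / L ^ 2 * t)) := by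
  have h1 : 1 / L ^ 2 * t ≤ 1 := by
    rw [one_div, inv_mul_le_iff₀ (by positivity), mul_one]
    exact ht
  have h2 := Real.add_one_le_exp (-(1 / 2) * (1 / L ^ 2 * t))
  linarith

lemma uf_l1 {L t : ℝ} (hL : 0 < L) (ht : 0 < t) (ht' : t ≤ L ^ 2) :
    1 / (2 * L) * (1 / L ^ 2 * t) ^ (-(3 / 4) : ℝ) ≤ uf L t := by
  have h0 := exp_half hL ht'
  have hx : 0 ≤ 1 / L ^ 2 * t := by positivity
  have h1 := gf_nonneg ht.le
  have h2 := Real.rpow_nonneg hx (-(3 / 4))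
  have h3 := Real.rpow_nonneg hx (-(1 / 2))
  have h4 : (1 / L ^ 2 * t) ^ (-(3 / 4) : ℝ) * (1 / 2) ≤ vf (1 / L ^ 2 * t) := by
    rw [vf]
    have h5 := mul_le_mul_of_nonneg_left h0 h2
    have h6 := Real.exp_pos (-(1 / 2) * (1 / L ^ 2 * t))
    have h7 := mul_nonneg h3 h6.le
    linarith
  have h8 : 1 / L * ((1 / L ^ 2 * t) ^ (-(3 / 4) : ℝ) * (1 / 2)) ≤ 1 / L * vf (1 / L ^ 2 * t) :=
    mul_le_mul_of_nonneg_left h4 (by positivity)
  have h9 : 1 / (2 * L) * (1 / L ^ 2 * t) ^ (-(3 / 4) : ℝ) =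
      1 / L * ((1 / L ^ 2 * t) ^ (-(3 / 4) : ℝ) * (1 / 2)) := by
    field_simp
  rw [h9, uf]
  have h10 : 0 ≤ L * gf t := mul_nonneg hL.le h1
  linarith

lemma uf_l2 {L t : ℝ} (hL : 0 < L) (ht : 0 < t) (ht' : t ≤ L ^ 2) : 1 / (2 * L) ≤ uf L t := by
  have h0 := exp_half hL ht'
  have hx : 0 ≤ 1 / L ^ 2 * t := by positivity
  have h1 := gf_nonneg ht.le
  have h2 := Real.rpow_nonneg hx (-(3 / 4))
  have h3 := Real.rpow_nonneg hx (-(1 / 2))
  have h4 : (1 / 2) ≤ vf (1 / L ^ 2 * t) := by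
    rw [vf]
    have h6 := Real.exp_pos (-(1 / 2) * (1 / L ^ 2 * t))
    have h7 := mul_nonneg h3 h6.le
    have h5 := mul_nonneg h2 h6.le
    linarith
  have h8 : 1 / L * (1 / 2) ≤ 1 / L * vf (1 / L ^ 2 * t) :=
    mul_le_mul_of_nonneg_left h4 (by positivity)
  have h9 : 1 / (2 * L) = 1 / L * (1 / 2) := by
    field_simp
  rw [h9, uf]
  have h10 : 0 ≤ L * gf t := mul_nonneg hL.le h1
  linarith

lemma uf_l3 {L t : ℝ} (hL : 0 < L) (ht : 0 < t) : L * gf t ≤ uf L t := by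
  have h2 := vf_nonneg (x := 1 / L ^ 2 * t) (by positivity)
  rw [uf]
  have h3 : 0 ≤ 1 / L * vf (1 / L ^ 2 * t) := by positivity
  linarith

lemma uf_l4 {L t : ℝ} (hL : 0 < L) (ht : 0 < t) :
    (1 / Real.sqrt (1 + t) + 1 / L) * Real.exp (-(t / (2 * L ^ 2))) ≤ uf L t := by
  have hx : 0 < 1 / L ^ 2 * t := by positivity
  have h1 := gf_nonneg ht.le
  have h2 := Real.rpow_nonneg hx.le (-(3 / 4))
  have h4 : Real.exp (-(t / (2 * L ^ 2))) = Real.exp (-(1 / 2) * (1 / L ^ 2 * t)) := by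
    congr 1
    field_simp
  have h5 : (1 / L ^ 2 * t) ^ (-(1 / 2) : ℝ) = L / Real.sqrt t := by
    rw [Real.rpow_neg hx.le, ← Real.sqrt_eq_rpow, Real.sqrt_mul (by positivity), one_div,
      Real.sqrt_inv, Real.sqrt_sq hL.le]
    field_simp
  have h6 := Real.exp_pos (-(1 / 2) * (1 / L ^ 2 * t))
  have h7 : 1 / Real.sqrt (1 + t) ≤ 1 / Real.sqrt t := by
    apply one_div_le_one_div_of_le (Real.sqrt_pos.mpr ht)
    exact Real.sqrt_le_sqrt (by linarith)
  have h8 : 1 / L * vf (1 / L ^ 2 * t) = 1 / L * ((1 / L ^ 2 * t) ^ (-(3 / 4) : ℝ) *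
      Real.exp (-(1 / 2) * (1 / L ^ 2 * t))) + (1 / Real.sqrt t + 1 / L) *
      Real.exp (-(1 / 2) * (1 / L ^ 2 * t)) := by
    rw [vf, h5]
    field_simp
    ring
  have h9 : 0 ≤ 1 / L * ((1 / L ^ 2 * t) ^ (-(3 / 4) : ℝ) *
      Real.exp (-(1 / 2) * (1 / L ^ 2 * t))) := by positivity
  have h10 : 0 ≤ L * gf t := mul_nonneg hL.le h1
  have h11 : (1 / Real.sqrt (1 + t) + 1 / L) * Real.exp (-(1 / 2) * (1 / L ^ 2 * t)) ≤
      (1 / Real.sqrt t + 1 / L) * Real.exp (-(1 / 2) * (1 / L ^ 2 * t)) :=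
    mul_le_mul_of_nonneg_right (by linarith) h6.le
  rw [h4, uf, h8]
  linarith

/-- (P2) -/
lemma uf_p2 {L t s : ℝ} (hL : 0 < L) (ht : 0 < t) (hs : 0 < s) (ht' : t ≤ L ^ 2)
    (hs' : s ≤ L ^ 2) :
    (L / Real.sqrt (1 + t + s)) ^ 3 ≤ 4 * (L ^ 2 * (uf L t * uf L s)) := by
  have h1 := uf_l1 hL ht ht'
  have h2 := uf_l1 hL hs hs'
  have hx : 0 < 1 / L ^ 2 * t := by positivity
  have hy : 0 < 1 / L ^ 2 * s := by positivity
  have h3 := mul_le_mul h1 h2 (by positivity) (uf_nonneg hL ht.le)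
  have hT : 0 < 1 + t + s := by positivity
  have h4 : ((1 + t + s) ^ 2 / L ^ 4) ^ (-(3 / 4) : ℝ) ≤
      (1 / L ^ 2 * t) ^ (-(3 / 4) : ℝ) * (1 / L ^ 2 * s) ^ (-(3 / 4) : ℝ) := by
    rw [← Real.mul_rpow hx.le hy.le]
    apply Real.rpow_le_rpow_of_nonpos (by positivity) _ (by norm_num)
    have h5 : 1 / L ^ 2 * t * (1 / L ^ 2 * s) = t * s / L ^ 4 := by
      field_simp
    rw [h5]
    apply div_le_div_of_nonneg_right _ (by positivity)
    nlinarith
  have h6 : ((1 + t + s) ^ 2 / L ^ 4) ^ (-(3 / 4) : ℝ) = (L / Real.sqrt (1 + t + s)) ^ 3 := by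
    have h7 : (1 + t + s) ^ 2 / L ^ 4 = (L / Real.sqrt (1 + t + s)) ^ (-4 : ℝ) := by
      rw [Real.rpow_neg (by positivity)]
      have h8 : ((4 : ℝ)) = ((4 : ℕ) : ℝ) := by norm_num
      rw [h8, Real.rpow_natCast, div_pow]
      have h9 : Real.sqrt (1 + t + s) ^ 4 = (1 + t + s) ^ 2 := by
        rw [show (4 : ℕ) = 2 * 2 by norm_num, pow_mul, Real.sq_sqrt hT.le]
      rw [h9]
      field_simp
    rw [h7, ← Real.rpow_mul (by positivity)]
    have h10 : (-4 : ℝ) * (-(3 / 4)) = ((3 : ℕ) : ℝ) := by norm_num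
    rw [h10, Real.rpow_natCast]
  rw [h6] at h4
  have h11 : 1 / (2 * L) * (1 / L ^ 2 * t) ^ (-(3 / 4) : ℝ) *
      (1 / (2 * L) * (1 / L ^ 2 * s) ^ (-(3 / 4) : ℝ)) = 1 / (4 * L ^ 2) *
      ((1 / L ^ 2 * t) ^ (-(3 / 4) : ℝ) * (1 / L ^ 2 * s) ^ (-(3 / 4) : ℝ)) := by
    field_simp
    ring
  rw [h11] at h3
  have h12 : 1 / (4 * L ^ 2) * (L / Real.sqrt (1 + t + s)) ^ 3 ≤ uf L t * uf L s :=
    (mul_le_mul_of_nonneg_left h4 (by positivity)).trans h3
  have h13 : (L / Real.sqrt (1 + t + s)) ^ 3 =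
      4 * (L ^ 2 * (1 / (4 * L ^ 2) * (L / Real.sqrt (1 + t + s)) ^ 3)) := by
    field_simp
  rw [h13]
  have h14 := mul_le_mul_of_nonneg_left h12 (by positivity : 0 ≤ L ^ 2)
  linarith

/-- (P3) -/
lemma uf_p3 {L t s : ℝ} (hL : 0 < L) (ht : 0 < t) (hs : 0 < s) :
    L ^ 4 / (1 + t + s) ^ 3 ≤ L ^ 2 * (uf L t * uf L s) := by
  have h1 := uf_l3 hL ht
  have h2 := uf_l3 hL hs
  have h3 := mul_le_mul h1 h2 (mul_nonneg hL.le (gf_nonneg hs.le)) (uf_nonneg hL ht.le)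
  have hT : 0 < 1 + t + s := by positivity
  have h4 : 1 / (1 + t + s) ^ 3 ≤ gf t * gf s := by
    rw [gf, gf, ← Real.mul_rpow (by positivity) (by positivity)]
    have h5 : 1 / (1 + t + s) ^ 3 = ((1 + t + s) ^ 2) ^ (-(3 / 2) : ℝ) := by
      rw [← Real.rpow_natCast (1 + t + s) 2, ← Real.rpow_mul hT.le]
      have h6 : ((2 : ℕ) : ℝ) * (-(3 / 2)) = -((3 : ℕ) : ℝ) := by norm_num
      rw [h6, Real.rpow_neg hT.le, Real.rpow_natCast, one_div]
    rw [h5]
    apply Real.rpow_le_rpow_of_nonpos (by positivity) _ (by norm_num)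
    nlinarith
  have h7 : L ^ 4 / (1 + t + s) ^ 3 = L ^ 2 * (L * L * (1 / (1 + t + s) ^ 3)) := by
    field_simp
  rw [h7]
  apply mul_le_mul_of_nonneg_left _ (by positivity)
  calc L * L * (1 / (1 + t + s) ^ 3) ≤ L * L * (gf t * gf s) :=
        mul_le_mul_of_nonneg_left h4 (by positivity)
    _ = L * gf t * (L * gf s) := by ring
    _ ≤ _ := h3

/-- (P4) -/
lemma uf_p4 {L t s : ℝ} (hL : 0 < L) (ht : 0 < t) (hs : 0 < s) (ht' : t ≤ L ^ 2)
    (hs' : s ≤ L ^ 2) : 1 ≤ 4 * (L ^ 2 * (uf L t * uf L s)) := by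
  have h1 := uf_l2 hL ht ht'
  have h2 := uf_l2 hL hs hs'
  have h3 := mul_le_mul h1 h2 (by positivity) (uf_nonneg hL ht.le)
  have h4 : (1 : ℝ) = 4 * (L ^ 2 * (1 / (2 * L) * (1 / (2 * L)))) := by
    field_simp
    norm_num
  rw [h4]
  have := mul_le_mul_of_nonneg_left h3 (by positivity : 0 ≤ L ^ 2)
  linarith

/-- (P1) -/
lemma uf_p1 {L t s : ℝ} (hL : 0 < L) (ht : 0 < t) (hs : 0 < s) :
    (1 / Real.sqrt (1 + t) + 1 / L) * (1 / Real.sqrt (1 + s) + 1 / L) *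
      Real.exp (-((t + s) / (2 * L ^ 2))) ≤ uf L t * uf L s := by
  have h1 := uf_l4 hL ht
  have h2 := uf_l4 hL hs
  have h3 := mul_le_mul h1 h2 (by positivity) (uf_nonneg hL ht.le)
  have h4 : Real.exp (-((t + s) / (2 * L ^ 2))) =
      Real.exp (-(t / (2 * L ^ 2))) * Real.exp (-(s / (2 * L ^ 2))) := by
    rw [← Real.exp_add]
    congr 1
    ring
  rw [h4]
  refine le_trans (le_of_eq ?_) h3
  ring


/-- the antiderivative of the inner integral -/
lemma inner_int {R t : ℝ} (hR : 0 ≤ R) (ht : 0 ≤ t) :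
    ∫ s in (0 : ℝ)..R, t * s / (1 + t + s) ^ 4 =
      t / (6 * (1 + t) ^ 2) - (t / (2 * (1 + t + R) ^ 2) - t * (1 + t) / (3 * (1 + t + R) ^ 3)) := by
  have hd : ∀ s ∈ uIcc (0 : ℝ) R, HasDerivAt (fun s : ℝ => t * (-(1 / 2) * ((1 + t + s) ^ 2)⁻¹ +
      (1 + t) / 3 * ((1 + t + s) ^ 3)⁻¹)) (t * s / (1 + t + s) ^ 4) s := by
    intro s hs
    rw [uIcc_of_le hR] at hs
    have hT : (1 + t + s) ≠ 0 := by
      have := hs.1
      positivity
    have h0 : HasDerivAt (fun s : ℝ => 1 + t + s) 1 s := by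
      simpa using (hasDerivAt_id s).const_add (1 + t)
    have h2 := (h0.pow 2).inv (pow_ne_zero 2 hT)
    have h3 := (h0.pow 3).inv (pow_ne_zero 3 hT)
    have h4 := ((h2.const_mul (-(1 / 2))).add (h3.const_mul ((1 + t) / 3))).const_mul t
    refine h4.congr_deriv ?_
    simp only [Pi.pow_apply, Nat.cast_ofNat]
    field_simp
    ring
  rw [intervalIntegral.integral_eq_sub_of_hasDerivAt hd]
  · have h1 : (1 + t) ≠ 0 := by positivity
    have h2 : (1 + t + R) ≠ 0 := by positivity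
    rw [add_zero]
    field_simp
    ring
  · apply ContinuousOn.intervalIntegrable
    intro s hs
    rw [uIcc_of_le hR] at hs
    have hT : (1 + t + s) ≠ 0 := by
      have := hs.1
      positivity
    apply ContinuousAt.continuousWithinAt
    exact ContinuousAt.div (by fun_prop) (by fun_prop) (pow_ne_zero 4 hT)

lemma outer_int {R : ℝ} (hR : 0 ≤ R) :
    ∫ t in (0 : ℝ)..R, t / (6 * (1 + t) ^ 2) = 1 / 6 * (Real.log (1 + R) + (1 + R)⁻¹ - 1) := by
  have hd : ∀ t ∈ uIcc (0 : ℝ) R, HasDerivAt (fun t : ℝ => 1 / 6 * (Real.log (1 + t) +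
      (1 + t)⁻¹)) (t / (6 * (1 + t) ^ 2)) t := by
    intro t ht
    rw [uIcc_of_le hR] at ht
    have hT : (1 + t) ≠ 0 := by
      have := ht.1
      positivity
    have h0 : HasDerivAt (fun t : ℝ => 1 + t) 1 t := by
      simpa using (hasDerivAt_id t).const_add 1
    have h2 := h0.log hT
    have h3 := h0.inv hT
    refine ((h2.add h3).const_mul (1 / 6)).congr_deriv ?_
    field_simp
    ring
  rw [intervalIntegral.integral_eq_sub_of_hasDerivAt hd]
  · simp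
    ring
  · apply ContinuousOn.intervalIntegrable
    intro t ht
    rw [uIcc_of_le hR] at ht
    have hT : (1 + t) ≠ 0 := by
      have := ht.1
      positivity
    apply ContinuousAt.continuousWithinAt
    exact ContinuousAt.div (by fun_prop) (by fun_prop) (by positivity)

/-- the main integral -/
lemma main_int {R : ℝ} (hR : 1 ≤ R) :
    |(∫ t in (0 : ℝ)..R, ∫ s in (0 : ℝ)..R, t * s / (1 + t + s) ^ 4) - 1 / 6 * Real.log R| ≤ 1 := by
  have hR0 : 0 ≤ R := by linarith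
  have e1 : (∫ t in (0 : ℝ)..R, ∫ s in (0 : ℝ)..R, t * s / (1 + t + s) ^ 4) =
      ∫ t in (0 : ℝ)..R, (t / (6 * (1 + t) ^ 2) -
        (t / (2 * (1 + t + R) ^ 2) - t * (1 + t) / (3 * (1 + t + R) ^ 3))) := by
    apply intervalIntegral.integral_congr
    intro t ht
    rw [uIcc_of_le hR0] at ht
    exact inner_int hR0 ht.1
  have hi1 : IntervalIntegrable (fun t : ℝ => t / (6 * (1 + t) ^ 2)) volume 0 R := by
    apply ContinuousOn.intervalIntegrable
    intro t ht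
    rw [uIcc_of_le hR0] at ht
    have hT : (1 + t) ≠ 0 := by
      have := ht.1
      positivity
    apply ContinuousAt.continuousWithinAt
    exact ContinuousAt.div (by fun_prop) (by fun_prop) (by positivity)
  have hi2 : IntervalIntegrable (fun t : ℝ => t / (2 * (1 + t + R) ^ 2) -
      t * (1 + t) / (3 * (1 + t + R) ^ 3)) volume 0 R := by
    apply ContinuousOn.intervalIntegrable
    intro t ht
    rw [uIcc_of_le hR0] at ht
    have hT : (1 + t + R) ≠ 0 := by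
      have := ht.1
      positivity
    apply ContinuousAt.continuousWithinAt
    exact (ContinuousAt.div (by fun_prop) (by fun_prop) (by positivity)).sub
      (ContinuousAt.div (by fun_prop) (by fun_prop) (by positivity))
  rw [e1, intervalIntegral.integral_sub hi1 hi2, outer_int hR0]
  have e2 : |∫ t in (0 : ℝ)..R, (t / (2 * (1 + t + R) ^ 2) -
      t * (1 + t) / (3 * (1 + t + R) ^ 3))| ≤ 1 / (2 * (1 + R)) * |R - 0| := by
    rw [← Real.norm_eq_abs]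
    apply intervalIntegral.norm_integral_le_of_norm_le_const
    intro t ht
    rw [uIoc_of_le hR0] at ht
    have ht0 : 0 < t := ht.1
    have hT : 0 < 1 + t + R := by positivity
    rw [Real.norm_eq_abs]
    have h1 : t / (2 * (1 + t + R) ^ 2) - t * (1 + t) / (3 * (1 + t + R) ^ 3) =
        t / (2 * (1 + t + R) ^ 2) * (1 - 2 * (1 + t) / (3 * (1 + t + R))) := by
      field_simp
    have h2 : 0 ≤ 2 * (1 + t) / (3 * (1 + t + R)) := by positivity
    have h3 : 2 * (1 + t) / (3 * (1 + t + R)) ≤ 1 := by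
      rw [div_le_one (by positivity)]
      nlinarith
    have h4 : t / (2 * (1 + t + R) ^ 2) ≤ 1 / (2 * (1 + R)) := by
      rw [div_le_div_iff₀ (by positivity) (by positivity)]
      nlinarith
    have h5 : 0 ≤ t / (2 * (1 + t + R) ^ 2) := by positivity
    rw [h1, abs_mul, abs_of_nonneg h5]
    have h6 : |1 - 2 * (1 + t) / (3 * (1 + t + R))| ≤ 1 := by
      rw [abs_le]
      constructor <;> linarith
    calc t / (2 * (1 + t + R) ^ 2) * |1 - 2 * (1 + t) / (3 * (1 + t + R))| ≤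
        1 / (2 * (1 + R)) * 1 := mul_le_mul h4 h6 (abs_nonneg _) (by positivity)
      _ = _ := by ring
  have e3 : 1 / (2 * (1 + R)) * |R - 0| ≤ 1 / 2 := by
    rw [sub_zero, abs_of_nonneg hR0, div_mul_eq_mul_div, one_mul,
      div_le_div_iff₀ (by positivity) (by norm_num)]
    linarith
  have e4 : Real.log (1 + R) = Real.log R + Real.log (1 + R⁻¹) := by
    rw [← Real.log_mul (by positivity) (by positivity)]
    congr 1
    field_simp
    ring
  have hRi : R⁻¹ ≤ 1 := inv_le_one_of_one_le₀ hR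
  have hRp : 0 < R⁻¹ := by positivity
  have e5 : 0 ≤ Real.log (1 + R⁻¹) := Real.log_nonneg (by linarith)
  have e6 : Real.log (1 + R⁻¹) ≤ R⁻¹ := by
    have := Real.log_le_sub_one_of_pos (by positivity : 0 < 1 + R⁻¹)
    linarith
  have e7 : 0 < (1 + R)⁻¹ := by positivity
  have e8 : (1 + R)⁻¹ ≤ 1 := inv_le_one_of_one_le₀ (by linarith)
  have e9 := e2.trans e3
  rw [abs_le] at e9 ⊢
  rw [e4]
  constructor <;> linarith [e9.1, e9.2]


lemma rp32 {x : ℝ} (hx : 0 ≤ x) : x ^ (3 / 2 : ℝ) = Real.sqrt x ^ 3 := by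
  rw [Real.sqrt_eq_rpow, ← Real.rpow_natCast, ← Real.rpow_mul hx]
  norm_num

lemma rp52 {x : ℝ} (hx : 0 ≤ x) : x ^ (5 / 2 : ℝ) = Real.sqrt x ^ 5 := by
  rw [Real.sqrt_eq_rpow, ← Real.rpow_natCast, ← Real.rpow_mul hx]
  norm_num

/-- the bounds of `S_H` which are used -/
structure HB (D : ℝ) : Prop where
  one : 1 ≤ D
  ha : ∀ t : ℝ, 1 ≤ t → |hh t - 1 / Real.sqrt (4 * Real.pi * t)| ≤ D / t ^ (3 / 2 : ℝ)
  wa : ∀ t : ℝ, 1 ≤ t → |ww t - 1 / (Real.sqrt Real.pi * t ^ (3 / 2 : ℝ))| ≤ D / t ^ (5 / 2 : ℝ)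
  h0 : ∀ t : ℝ, 0 ≤ t → 0 ≤ hh t
  hb : ∀ t : ℝ, 0 ≤ t → hh t ≤ D / Real.sqrt (1 + t)
  w0 : ∀ t : ℝ, 0 ≤ t → 0 ≤ ww t
  wb : ∀ t : ℝ, 0 ≤ t → ww t ≤ D / Real.sqrt (1 + t) ^ 3

lemma hb_of (h : S_H) : ∃ D, HB D := by
  obtain ⟨C, hC, h1, h2, -⟩ := h
  refine ⟨C, hC, fun t ht => (h1 t ht).1, fun t ht => (h1 t ht).2.1, fun t ht => (h2 t ht).1,
    fun t ht => (h2 t ht).2.1, fun t ht => (h2 t ht).2.2.1, fun t ht => ?_⟩
  rw [← rp32 (by linarith)]
  exact (h2 t ht).2.2.2.1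

lemma asym {D : ℝ} (H : HB D) (τ : ℝ) (hτ : 0 ≤ τ) :
    |ww τ ^ 2 * hh τ ^ 2 - 1 / (4 * Real.pi ^ 2 * (1 + τ) ^ 4)| ≤ 48 * D ^ 4 / (1 + τ) ^ 5 := by
  have hD := H.one
  have hD0 : 0 < D := by linarith
  obtain ⟨T, hT⟩ : ∃ T, T = 1 + τ := ⟨_, rfl⟩
  have hT1 : 1 ≤ T := by linarith
  have hT0 : 0 < T := by linarith
  obtain ⟨X, hX⟩ : ∃ X, X = Real.sqrt (1 + τ) := ⟨_, rfl⟩
  have hX0 : 0 < X := by rw [hX]; exact Real.sqrt_pos.mpr (by linarith)
  have hX2 : X ^ 2 = T := by rw [hX, hT]; exact Real.sq_sqrt (by linarith)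
  have hpi := Real.pi_gt_three
  have hw0 := H.w0 τ hτ
  have hh0 := H.h0 τ hτ
  have hwb := H.wb τ hτ
  have hhb := H.hb τ hτ
  rw [← hX] at hwb hhb
  obtain ⟨w, hw⟩ : ∃ w, w = ww τ := ⟨_, rfl⟩
  obtain ⟨h, hh'⟩ : ∃ h, h = hh τ := ⟨_, rfl⟩
  rw [← hw] at hw0 hwb
  rw [← hh'] at hh0 hhb
  rw [← hw, ← hh', ← hT]
  have hwh : w * h ≤ D ^ 2 / T ^ 2 := by
    calc w * h ≤ D / X ^ 3 * (D / X) := mul_le_mul hwb hhb hh0 (by positivity)
      _ = D ^ 2 / (X ^ 2) ^ 2 := by field_simp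
      _ = D ^ 2 / T ^ 2 := by rw [hX2]
  have hwh0 : 0 ≤ w * h := mul_nonneg hw0 hh0
  have hx0 : 0 < 1 / (2 * Real.pi * T ^ 2) := by positivity
  have hx1 : 1 / (2 * Real.pi * T ^ 2) ≤ 1 / T ^ 2 := by
    apply one_div_le_one_div_of_le (by positivity)
    nlinarith [sq_nonneg T, pow_pos hT0 2]
  have hD2 : 1 ≤ D ^ 2 := one_le_pow₀ hD
  have hplus : |w * h + 1 / (2 * Real.pi * T ^ 2)| ≤ 2 * D ^ 2 / T ^ 2 := by
    rw [abs_of_nonneg (by positivity)]
    have e1 : 1 / T ^ 2 ≤ D ^ 2 / T ^ 2 := div_le_div_of_nonneg_right hD2 (by positivity)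
    have e2 : 2 * D ^ 2 / T ^ 2 = D ^ 2 / T ^ 2 + D ^ 2 / T ^ 2 := by ring
    rw [e2]
    linarith
  have hfac : w ^ 2 * h ^ 2 - 1 / (4 * Real.pi ^ 2 * T ^ 4) =
      (w * h - 1 / (2 * Real.pi * T ^ 2)) * (w * h + 1 / (2 * Real.pi * T ^ 2)) := by
    field_simp
    ring
  have hminus : |w * h - 1 / (2 * Real.pi * T ^ 2)| ≤ 24 * D ^ 2 / T ^ 3 := by
    rcases le_or_gt 1 τ with h1 | h1
    · obtain ⟨y, hy⟩ : ∃ y, y = Real.sqrt τ := ⟨_, rfl⟩
      have hy0 : 0 < y := by rw [hy]; exact Real.sqrt_pos.mpr (by linarith)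
      have hy2 : y ^ 2 = τ := by rw [hy]; exact Real.sq_sqrt hτ
      have hyX : y ≤ X := by rw [hy, hX]; exact Real.sqrt_le_sqrt (by linarith)
      obtain ⟨q, hq⟩ : ∃ q, q = Real.sqrt Real.pi := ⟨_, rfl⟩
      have hq0 : 0 < q := by rw [hq]; exact Real.sqrt_pos.mpr Real.pi_pos
      have hq2 : q ^ 2 = Real.pi := by rw [hq]; exact Real.sq_sqrt Real.pi_pos.le
      have hq1 : 1 ≤ q := by
        rw [hq]
        exact Real.one_le_sqrt.mpr (by linarith)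
      have ha := H.ha τ h1
      have wa := H.wa τ h1
      have e4 : Real.sqrt (4 * Real.pi * τ) = 2 * q * y := by
        rw [Real.sqrt_mul (by positivity), Real.sqrt_mul (by norm_num), ← hy, ← hq,
          show (4 : ℝ) = 2 ^ 2 by norm_num, Real.sqrt_sq (by norm_num)]
      rw [rp32 hτ, ← hy, ← hh', e4] at ha
      rw [rp32 hτ, rp52 hτ, ← hy, ← hw, ← hq] at wa
      have hhy : h ≤ D / y := hhb.trans (div_le_div_of_nonneg_left hD0.le hy0 hyX)
      have e5 : |w * h - 1 / (q * y ^ 3) * (1 / (2 * q * y))| ≤ 2 * D ^ 2 / y ^ 6 := by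
        have e6 : w * h - 1 / (q * y ^ 3) * (1 / (2 * q * y)) =
            (w - 1 / (q * y ^ 3)) * h + 1 / (q * y ^ 3) * (h - 1 / (2 * q * y)) := by ring
        rw [e6]
        refine (abs_add_le _ _).trans ?_
        rw [abs_mul, abs_mul, abs_of_nonneg hh0,
          abs_of_nonneg (by positivity : 0 ≤ 1 / (q * y ^ 3))]
        have e7 : |w - 1 / (q * y ^ 3)| * h ≤ D / y ^ 5 * (D / y) :=
          mul_le_mul wa hhy hh0 (by positivity)
        have e8 : 1 / (q * y ^ 3) ≤ 1 / y ^ 3 := by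
          apply one_div_le_one_div_of_le (by positivity)
          nlinarith [pow_pos hy0 3]
        have e9 : 1 / (q * y ^ 3) * |h - 1 / (2 * q * y)| ≤ 1 / y ^ 3 * (D / y ^ 3) :=
          mul_le_mul e8 ha (abs_nonneg _) (by positivity)
        have e10 : D / y ^ 5 * (D / y) = D ^ 2 / y ^ 6 := by field_simp
        have e11 : 1 / y ^ 3 * (D / y ^ 3) = D / y ^ 6 := by field_simp
        have e12 : D / y ^ 6 ≤ D ^ 2 / y ^ 6 := by
          apply div_le_div_of_nonneg_right _ (by positivity)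
          nlinarith
        have e13 : 2 * D ^ 2 / y ^ 6 = D ^ 2 / y ^ 6 + D ^ 2 / y ^ 6 := by ring
        rw [e13]
        linarith
      have e14 : 1 / (q * y ^ 3) * (1 / (2 * q * y)) = 1 / (2 * Real.pi * τ ^ 2) := by
        rw [← hq2, ← hy2]
        field_simp
      have e15 : 2 * D ^ 2 / y ^ 6 = 2 * D ^ 2 / τ ^ 3 := by
        rw [← hy2]
        ring
      rw [e14, e15] at e5
      have hτ0 : 0 < τ := by linarith
      have e16 : |1 / (2 * Real.pi * τ ^ 2) - 1 / (2 * Real.pi * T ^ 2)| ≤ 1 / τ ^ 3 := by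
        have e17 : 1 / (2 * Real.pi * τ ^ 2) - 1 / (2 * Real.pi * T ^ 2) =
            (2 * τ + 1) / (2 * Real.pi * τ ^ 2 * T ^ 2) := by
          rw [hT]
          have : 1 + τ ≠ 0 := by positivity
          field_simp
          ring
        rw [e17, abs_of_nonneg (by positivity), div_le_div_iff₀ (by positivity) (by positivity)]
        have e18 : (2 * τ + 1) * τ ≤ 2 * Real.pi * T ^ 2 := by
          rw [hT]
          nlinarith [sq_nonneg (1 + τ), sq_nonneg τ]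
        nlinarith [mul_le_mul_of_nonneg_right e18 (sq_nonneg τ)]
      have e19 : |w * h - 1 / (2 * Real.pi * T ^ 2)| ≤ 3 * D ^ 2 / τ ^ 3 := by
        have e20 : w * h - 1 / (2 * Real.pi * T ^ 2) = (w * h - 1 / (2 * Real.pi * τ ^ 2)) +
            (1 / (2 * Real.pi * τ ^ 2) - 1 / (2 * Real.pi * T ^ 2)) := by ring
        rw [e20]
        refine (abs_add_le _ _).trans ?_
        have e21 : 1 / τ ^ 3 ≤ D ^ 2 / τ ^ 3 := div_le_div_of_nonneg_right hD2 (by positivity)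
        have e22 : 3 * D ^ 2 / τ ^ 3 = 2 * D ^ 2 / τ ^ 3 + D ^ 2 / τ ^ 3 := by ring
        rw [e22]
        linarith
      refine e19.trans ?_
      rw [div_le_div_iff₀ (by positivity) (by positivity)]
      have e23 : T ^ 3 ≤ (2 * τ) ^ 3 := pow_le_pow_left₀ hT0.le (by linarith) 3
      nlinarith [mul_le_mul_of_nonneg_left e23 (by positivity : 0 ≤ 3 * D ^ 2)]
    · have hT2 : T ≤ 2 := by linarith
      have e1 : |w * h - 1 / (2 * Real.pi * T ^ 2)| ≤ D ^ 2 / T ^ 2 := by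
        have e3 : 1 / T ^ 2 ≤ D ^ 2 / T ^ 2 := div_le_div_of_nonneg_right hD2 (by positivity)
        rw [abs_le]
        constructor <;> linarith
      refine e1.trans ?_
      rw [div_le_div_iff₀ (by positivity) (by positivity)]
      have e2 : D ^ 2 * T ^ 2 * T ≤ D ^ 2 * T ^ 2 * 2 :=
        mul_le_mul_of_nonneg_left hT2 (by positivity)
      nlinarith [mul_nonneg (sq_nonneg D) (sq_nonneg T)]
  rw [hfac, abs_mul]
  calc |w * h - 1 / (2 * Real.pi * T ^ 2)| * |w * h + 1 / (2 * Real.pi * T ^ 2)| ≤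
      24 * D ^ 2 / T ^ 3 * (2 * D ^ 2 / T ^ 2) := mul_le_mul hminus hplus (abs_nonneg _)
        (by positivity)
    _ = 48 * D ^ 4 / T ^ 5 := by field_simp; ring

/-- the algebra of the first region -/
lemma alg {a b c d m n g B X2 z C0 D E : ℝ} (hC0 : 0 ≤ C0) (hD : 0 ≤ D) (hE : E = D + 2 * C0)
    (hz : 1 ≤ 2 * z) (hg : 0 ≤ g) (hgX : g ≤ X2) (hm : 0 ≤ m) (hmX : m * X2 ≤ D * z) (hn : 0 ≤ n)
    (hnz : n ≤ D * z) (hB : 0 ≤ B) (hgB : g * B ≤ 4) (ha : |a - m * g ^ 2| ≤ C0 * g)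
    (hb : |b - m| ≤ C0 * B) (hc : |c - n| ≤ C0) (hd : |d - n| ≤ C0) :
    |a * b * c * d - m ^ 2 * g ^ 2 * n ^ 2| ≤
      (4 * C0 * E ^ 3 + C0 * D * E ^ 2 + 2 * C0 * E * D ^ 2) * z ^ 3 := by
  have hz0 : 0 < z := by linarith
  have hE0 : 0 ≤ E := by rw [hE]; positivity
  have hX2 : 0 ≤ X2 := hg.trans hgX
  have hCz : C0 ≤ 2 * C0 * z := by nlinarith
  have hc' : |c| ≤ E * z := by
    have : c = (c - n) + n := by ring
    rw [this]
    refine (abs_add_le _ _).trans ?_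
    rw [abs_of_nonneg hn, hE]
    nlinarith
  have hd' : |d| ≤ E * z := by
    have : d = (d - n) + n := by ring
    rw [this]
    refine (abs_add_le _ _).trans ?_
    rw [abs_of_nonneg hn, hE]
    nlinarith
  have hmg : m * g ≤ D * z := (mul_le_mul_of_nonneg_left hgX hm).trans hmX
  have ha' : |a| ≤ E * z * g := by
    have : a = (a - m * g ^ 2) + m * g ^ 2 := by ring
    rw [this]
    refine (abs_add_le _ _).trans ?_
    rw [abs_of_nonneg (by positivity : 0 ≤ m * g ^ 2), hE]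
    have h1 : m * g ^ 2 ≤ D * z * g := by
      have := mul_le_mul_of_nonneg_right hmg hg
      nlinarith
    have h2 : C0 * g ≤ 2 * C0 * z * g := mul_le_mul_of_nonneg_right hCz hg
    nlinarith
  have e1 : a * b * c * d - m ^ 2 * g ^ 2 * n ^ 2 = a * (b - m) * c * d +
      (a - m * g ^ 2) * m * c * d + (m * g) ^ 2 * ((c - n) * d + n * (d - n)) := by ring
  have t1 : |a * (b - m) * c * d| ≤ 4 * C0 * E ^ 3 * z ^ 3 := by
    rw [abs_mul, abs_mul, abs_mul]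
    calc |a| * |b - m| * |c| * |d| ≤ (E * z * g) * (C0 * B) * (E * z) * (E * z) := by gcongr
      _ = (g * B) * (C0 * E ^ 3 * z ^ 3) := by ring
      _ ≤ 4 * (C0 * E ^ 3 * z ^ 3) := mul_le_mul_of_nonneg_right hgB (by positivity)
      _ = _ := by ring
  have t2 : |(a - m * g ^ 2) * m * c * d| ≤ C0 * D * E ^ 2 * z ^ 3 := by
    rw [abs_mul, abs_mul, abs_mul, abs_of_nonneg hm]
    calc |a - m * g ^ 2| * m * |c| * |d| ≤ (C0 * g) * m * (E * z) * (E * z) := by gcongr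
      _ = (m * g) * (C0 * E ^ 2 * z ^ 2) := by ring
      _ ≤ (D * z) * (C0 * E ^ 2 * z ^ 2) := mul_le_mul_of_nonneg_right hmg (by positivity)
      _ = _ := by ring
  have t3 : |(m * g) ^ 2 * ((c - n) * d + n * (d - n))| ≤ 2 * C0 * E * D ^ 2 * z ^ 3 := by
    rw [abs_mul, abs_of_nonneg (by positivity : 0 ≤ (m * g) ^ 2)]
    have h1 : |(c - n) * d + n * (d - n)| ≤ 2 * C0 * E * z := by
      refine (abs_add_le _ _).trans ?_
      rw [abs_mul, abs_mul, abs_of_nonneg hn]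
      have h2 : |c - n| * |d| ≤ C0 * (E * z) := by gcongr
      have h3 : n * |d - n| ≤ (D * z) * C0 := by gcongr
      have h4 : D * z * C0 ≤ E * z * C0 := by
        have : D ≤ E := by rw [hE]; linarith
        gcongr
      nlinarith
    have h5 : (m * g) ^ 2 ≤ (D * z) ^ 2 := pow_le_pow_left₀ (by positivity) hmg 2
    calc (m * g) ^ 2 * |(c - n) * d + n * (d - n)| ≤ (D * z) ^ 2 * (2 * C0 * E * z) := by
          gcongr
      _ = _ := by ring
  rw [e1]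
  refine (abs_add_le _ _).trans ((add_le_add (abs_add_le _ _) le_rfl).trans ?_)
  nlinarith

/-- the comparison function -/
def mf (L : ℝ) (t s : ℝ) : ℝ := L ^ 4 / (4 * Real.pi ^ 2) * (t * s / (1 + t + s) ^ 4)

/-- `√x (1 / √(1 + x) + 1 / L) ≤ 2` for `x ≤ L²` -/
lemma sqrt_b {L t : ℝ} (hL : 0 < L) (ht : 0 < t) (ht' : t ≤ L ^ 2) :
    Real.sqrt t * (1 / Real.sqrt (1 + t) + 1 / L) ≤ 2 := by
  have h1 : Real.sqrt t ≤ Real.sqrt (1 + t) := Real.sqrt_le_sqrt (by linarith)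
  have h2 : 0 < Real.sqrt (1 + t) := Real.sqrt_pos.mpr (by linarith)
  have h3 : Real.sqrt t ≤ L := by
    rw [show L = Real.sqrt (L ^ 2) from (Real.sqrt_sq hL.le).symm]
    exact Real.sqrt_le_sqrt ht'
  have h4 : Real.sqrt t / Real.sqrt (1 + t) ≤ 1 := (div_le_one h2).mpr h1
  have h5 : Real.sqrt t / L ≤ 1 := (div_le_one hL).mpr h3
  have h6 : Real.sqrt t * (1 / Real.sqrt (1 + t) + 1 / L) =
      Real.sqrt t / Real.sqrt (1 + t) + Real.sqrt t / L := by ring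
  rw [h6]
  linarith

/-- region `t + s ≤ L²` -/
lemma reg1 {D C0 L : ℝ} (H : HB D) (hC0 : 0 ≤ C0) (hL : 1 ≤ L) {a b c d t s : ℝ} (ht : 0 < t)
    (hs : 0 < s) (hts : t + s ≤ L ^ 2)
    (ha : |a - L * (t * s * ww (t + s))| ≤ C0 * Real.sqrt (t * s))
    (hb : |b - L * ww (t + s)| ≤
      C0 * (1 / Real.sqrt (1 + t) + 1 / L) * (1 / Real.sqrt (1 + s) + 1 / L))
    (hc : |c - L * hh (t + s)| ≤ C0) (hd : |d - L * hh (t + s)| ≤ C0) :
    |a * b * c * d - mf L t s| ≤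
      (4 * (4 * C0 * (D + 2 * C0) ^ 3 + C0 * D * (D + 2 * C0) ^ 2 +
        2 * C0 * (D + 2 * C0) * D ^ 2) + 48 * D ^ 4) * (L ^ 2 * (uf L t * uf L s)) := by
  have hL0 : 0 < L := by linarith
  have hD := H.one
  have hτ : 0 ≤ t + s := by positivity
  obtain ⟨X, hX⟩ : ∃ X, X = Real.sqrt (1 + (t + s)) := ⟨_, rfl⟩
  have hX0 : 0 < X := by rw [hX]; exact Real.sqrt_pos.mpr (by positivity)
  have hX2 : X ^ 2 = 1 + (t + s) := by rw [hX]; exact Real.sq_sqrt (by positivity)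
  have hXL : X ≤ 2 * L := by
    apply (pow_le_pow_iff_left₀ hX0.le (by positivity) two_ne_zero).mp
    rw [hX2]
    nlinarith
  obtain ⟨g, hg⟩ : ∃ g, g = Real.sqrt (t * s) := ⟨_, rfl⟩
  have hg0 : 0 ≤ g := by rw [hg]; exact Real.sqrt_nonneg _
  have hg2 : g ^ 2 = t * s := by rw [hg]; exact Real.sq_sqrt (by positivity)
  have hgX : g ≤ X ^ 2 := by
    rw [hX2, hg]
    apply Real.sqrt_le_iff.mpr
    constructor
    · positivity
    · nlinarith
  have hw0 := H.w0 _ hτ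
  have hh0 := H.h0 _ hτ
  have hwb := H.wb _ hτ
  have hhb := H.hb _ hτ
  rw [← hX] at hwb hhb
  have hgB : g * ((1 / Real.sqrt (1 + t) + 1 / L) * (1 / Real.sqrt (1 + s) + 1 / L)) ≤ 4 := by
    have e1 := sqrt_b hL0 ht (by linarith : t ≤ L ^ 2)
    have e2 := sqrt_b hL0 hs (by linarith : s ≤ L ^ 2)
    have e3 : g = Real.sqrt t * Real.sqrt s := by rw [hg, Real.sqrt_mul ht.le]
    rw [e3]
    calc Real.sqrt t * Real.sqrt s *
          ((1 / Real.sqrt (1 + t) + 1 / L) * (1 / Real.sqrt (1 + s) + 1 / L)) =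
          (Real.sqrt t * (1 / Real.sqrt (1 + t) + 1 / L)) *
            (Real.sqrt s * (1 / Real.sqrt (1 + s) + 1 / L)) := by ring
      _ ≤ 2 * 2 := mul_le_mul e1 e2 (by positivity) (by norm_num)
      _ = 4 := by norm_num
  have hmain := alg (a := a) (b := b) (c := c) (d := d) (m := L * ww (t + s)) (n := L * hh (t + s))
    (g := g) (B := (1 / Real.sqrt (1 + t) + 1 / L) * (1 / Real.sqrt (1 + s) + 1 / L))
    (X2 := X ^ 2) (z := L / X) (C0 := C0) (D := D) (E := D + 2 * C0) hC0 (by linarith) rfl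
    (by rw [← mul_div_assoc, le_div_iff₀ hX0]; linarith) hg0 hgX (by positivity)
    (by
      calc L * ww (t + s) * X ^ 2 ≤ L * (D / X ^ 3) * X ^ 2 := by gcongr
        _ = D * (L / X) := by field_simp)
    (by positivity)
    (by
      calc L * hh (t + s) ≤ L * (D / X) := by gcongr
        _ = D * (L / X) := by field_simp)
    (by positivity) hgB
    (by
      have : L * ww (t + s) * (t * s) = L * (t * s * ww (t + s)) := by ring
      rw [hg2, this, hg]; exact ha)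
    (by rw [← mul_assoc]; exact hb) hc hd
  have hp2 := uf_p2 hL0 ht hs (by linarith : t ≤ L ^ 2) (by linarith : s ≤ L ^ 2)
  have hp3 := uf_p3 hL0 ht hs
  have hXe : Real.sqrt (1 + t + s) = X := by rw [hX, add_assoc]
  rw [hXe] at hp2
  have hasym := asym H (t + s) hτ
  have hsec : |(L * ww (t + s)) ^ 2 * g ^ 2 * (L * hh (t + s)) ^ 2 - mf L t s| ≤
      48 * D ^ 4 * (L ^ 4 / (1 + t + s) ^ 3) := by
    have e1 : (L * ww (t + s)) ^ 2 * g ^ 2 * (L * hh (t + s)) ^ 2 - mf L t s =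
        L ^ 4 * (t * s) * (ww (t + s) ^ 2 * hh (t + s) ^ 2 -
          1 / (4 * Real.pi ^ 2 * (1 + (t + s)) ^ 4)) := by
      rw [hg2, mf]
      have : 1 + t + s = 1 + (t + s) := by ring
      rw [this]
      field_simp
    rw [e1, abs_mul, abs_of_nonneg (by positivity : 0 ≤ L ^ 4 * (t * s))]
    have e2 : t * s ≤ (1 + (t + s)) ^ 2 := by nlinarith
    calc L ^ 4 * (t * s) * |ww (t + s) ^ 2 * hh (t + s) ^ 2 -
          1 / (4 * Real.pi ^ 2 * (1 + (t + s)) ^ 4)| ≤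
          L ^ 4 * (1 + (t + s)) ^ 2 * (48 * D ^ 4 / (1 + (t + s)) ^ 5) := by gcongr
      _ = 48 * D ^ 4 * (L ^ 4 / (1 + t + s) ^ 3) := by
        have : 1 + t + s = 1 + (t + s) := by ring
        rw [this]
        field_simp
  obtain ⟨K1, hK1⟩ : ∃ K1, K1 = 4 * C0 * (D + 2 * C0) ^ 3 + C0 * D * (D + 2 * C0) ^ 2 +
        2 * C0 * (D + 2 * C0) * D ^ 2 := ⟨_, rfl⟩
  have hK10 : 0 ≤ K1 := by rw [hK1]; positivity
  rw [← hK1] at hmain ⊢
  have e5 : a * b * c * d - mf L t s = (a * b * c * d - (L * ww (t + s)) ^ 2 * g ^ 2 *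
      (L * hh (t + s)) ^ 2) + ((L * ww (t + s)) ^ 2 * g ^ 2 * (L * hh (t + s)) ^ 2 -
        mf L t s) := by ring
  rw [e5]
  refine (abs_add_le _ _).trans ?_
  have e6 := mul_le_mul_of_nonneg_left hp2 hK10
  have e7 := mul_le_mul_of_nonneg_left hp3 (by positivity : 0 ≤ 48 * D ^ 4)
  nlinarith

/-- region `t + s ≥ L²` -/
lemma reg2 {D C0 L : ℝ} (H : HB D) (hC0 : 0 ≤ C0) (hL : 1 ≤ L) {a b c d t s : ℝ} (ht : 0 < t)
    (hs : 0 < s) (hts : L ^ 2 ≤ t + s) (ha : |a| ≤ C0 * L ^ 2)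
    (hb : |b - L * ww (t + s)| ≤
      C0 * (1 / Real.sqrt (1 + t) + 1 / L) * (1 / Real.sqrt (1 + s) + 1 / L))
    (hc : |c| ≤ C0) (hd : |d| ≤ C0 * Real.exp (-((t + s) / (2 * L ^ 2)))) :
    |a * b * c * d| ≤ (C0 ^ 3 * (D + C0)) * (L ^ 2 * (uf L t * uf L s)) := by
  have hL0 : 0 < L := by linarith
  have hD := H.one
  have hτ : 0 ≤ t + s := by positivity
  obtain ⟨X, hX⟩ : ∃ X, X = Real.sqrt (1 + (t + s)) := ⟨_, rfl⟩
  have hX0 : 0 < X := by rw [hX]; exact Real.sqrt_pos.mpr (by positivity)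
  have hX2 : X ^ 2 = 1 + (t + s) := by rw [hX]; exact Real.sq_sqrt (by positivity)
  have hXL : L ≤ X := by
    apply (pow_le_pow_iff_left₀ hL0.le hX0.le two_ne_zero).mp
    rw [hX2]
    linarith
  have hw0 := H.w0 _ hτ
  have hwb := H.wb _ hτ
  rw [← hX] at hwb
  obtain ⟨B, hB⟩ : ∃ B, B = (1 / Real.sqrt (1 + t) + 1 / L) * (1 / Real.sqrt (1 + s) + 1 / L) :=
    ⟨_, rfl⟩
  have hB0 : 0 ≤ B := by rw [hB]; positivity
  have hBL : 1 / L ^ 2 ≤ B := by
    have e1 : (1 / L) * (1 / L) ≤ B := by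
      rw [hB]
      have h1 : 1 / L ≤ 1 / Real.sqrt (1 + t) + 1 / L := by
        have : 0 ≤ 1 / Real.sqrt (1 + t) := by positivity
        linarith
      have h2 : 1 / L ≤ 1 / Real.sqrt (1 + s) + 1 / L := by
        have : 0 ≤ 1 / Real.sqrt (1 + s) := by positivity
        linarith
      exact mul_le_mul h1 h2 (by positivity) (by positivity)
    refine le_trans (le_of_eq ?_) e1
    field_simp
  have hb' : |b| ≤ (D + C0) * B := by
    have e1 : b = (b - L * ww (t + s)) + L * ww (t + s) := by ring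
    rw [e1]
    refine (abs_add_le _ _).trans ?_
    rw [abs_of_nonneg (by positivity : 0 ≤ L * ww (t + s))]
    have e2 : L * ww (t + s) ≤ D * B := by
      calc L * ww (t + s) ≤ L * (D / X ^ 3) := by gcongr
        _ ≤ L * (D / L ^ 3) := by gcongr
        _ = D * (1 / L ^ 2) := by field_simp
        _ ≤ D * B := by gcongr
    have e3 : |b - L * ww (t + s)| ≤ C0 * B := by rw [hB, ← mul_assoc]; exact hb
    nlinarith
  have hp1 := uf_p1 hL0 ht hs
  rw [← hB] at hp1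
  rw [abs_mul, abs_mul, abs_mul]
  calc |a| * |b| * |c| * |d| ≤ (C0 * L ^ 2) * ((D + C0) * B) * C0 *
        (C0 * Real.exp (-((t + s) / (2 * L ^ 2)))) := by gcongr
    _ = (C0 ^ 3 * (D + C0)) * (L ^ 2 * (B * Real.exp (-((t + s) / (2 * L ^ 2))))) := by ring
    _ ≤ _ := by gcongr

/-- the comparison function in the region `t + s ≥ L²` -/
lemma reg3 {L : ℝ} (hL : 1 ≤ L) {t s : ℝ} (ht : 0 < t)
    (hs : 0 < s) (hts : L ^ 2 ≤ t + s) (ht' : t ≤ L ^ 2) (hs' : s ≤ L ^ 2) :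
    |mf L t s| ≤ 4 * (L ^ 2 * (uf L t * uf L s)) := by
  have hL0 : 0 < L := by linarith
  have hp4 := uf_p4 hL0 ht hs ht' hs'
  refine le_trans ?_ hp4
  have hpi := Real.pi_gt_three
  have h0 : 0 ≤ mf L t s := by rw [mf]; positivity
  rw [abs_of_nonneg h0, mf]
  have e1 : t * s / (1 + t + s) ^ 4 ≤ 1 / (1 + t + s) ^ 2 := by
    rw [div_le_div_iff₀ (by positivity) (by positivity)]
    have : t * s ≤ (1 + t + s) ^ 2 := by nlinarith
    calc t * s * (1 + t + s) ^ 2 ≤ (1 + t + s) ^ 2 * (1 + t + s) ^ 2 := by gcongr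
      _ = 1 * (1 + t + s) ^ 4 := by ring
  have e2 : 1 / (1 + t + s) ^ 2 ≤ 1 / L ^ 4 := by
    apply one_div_le_one_div_of_le (by positivity)
    have : L ^ 2 ≤ 1 + t + s := by linarith
    calc L ^ 4 = (L ^ 2) ^ 2 := by ring
      _ ≤ (1 + t + s) ^ 2 := pow_le_pow_left₀ (by positivity) this 2
  have e3 : L ^ 4 / (4 * Real.pi ^ 2) * (t * s / (1 + t + s) ^ 4) ≤
      L ^ 4 / (4 * Real.pi ^ 2) * (1 / L ^ 4) :=
    mul_le_mul_of_nonneg_left (e1.trans e2) (by positivity)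
  refine e3.trans ?_
  have e4 : L ^ 4 / (4 * Real.pi ^ 2) * (1 / L ^ 4) = 1 / (4 * Real.pi ^ 2) := by field_simp
  rw [e4, div_le_one (by positivity)]
  nlinarith


/-- the integral of the comparison function over the square -/
lemma int_mf {L : ℝ} (hL : 1 ≤ L) :
    Integrable ((Ioc (0 : ℝ) (L ^ 2) ×ˢ Ioc (0 : ℝ) (L ^ 2)).indicator
      (fun p : ℝ × ℝ => mf L p.1 p.2))
      ((volume.restrict (Ioi (0 : ℝ))).prod (volume.restrict (Ioi (0 : ℝ)))) ∧
    |(∫ p, (Ioc (0 : ℝ) (L ^ 2) ×ˢ Ioc (0 : ℝ) (L ^ 2)).indicator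
      (fun p : ℝ × ℝ => mf L p.1 p.2) p
      ∂((volume.restrict (Ioi (0 : ℝ))).prod (volume.restrict (Ioi (0 : ℝ))))) -
        L ^ 4 / (4 * Real.pi ^ 2) * (1 / 6 * Real.log (L ^ 2))| ≤ L ^ 4 / (4 * Real.pi ^ 2) := by
  have hL0 : 0 < L := by linarith
  have hms : MeasurableSet (Ioc (0 : ℝ) (L ^ 2) ×ˢ Ioc (0 : ℝ) (L ^ 2)) :=
    measurableSet_Ioc.prod measurableSet_Ioc
  have hcont : ContinuousOn (fun p : ℝ × ℝ => mf L p.1 p.2)
      (Icc (0 : ℝ) (L ^ 2) ×ˢ Icc (0 : ℝ) (L ^ 2)) := by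
    intro p hp
    have h1 : 0 ≤ p.1 := hp.1.1
    have h2 : 0 ≤ p.2 := hp.2.1
    have h3 : 1 + p.1 + p.2 ≠ 0 := by positivity
    apply ContinuousAt.continuousWithinAt
    unfold mf
    exact ContinuousAt.mul (by fun_prop) (ContinuousAt.div (by fun_prop) (by fun_prop)
      (pow_ne_zero 4 h3))
  have hI1 : IntegrableOn (fun p : ℝ × ℝ => mf L p.1 p.2)
      (Ioc (0 : ℝ) (L ^ 2) ×ˢ Ioc (0 : ℝ) (L ^ 2)) (volume.prod volume) :=
    (hcont.integrableOn_compact (isCompact_Icc.prod isCompact_Icc)).mono_set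
      (prod_mono Ioc_subset_Icc_self Ioc_subset_Icc_self)
  have hI2 : IntegrableOn (fun p : ℝ × ℝ => mf L p.1 p.2)
      (Ioc (0 : ℝ) (L ^ 2) ×ˢ Ioc (0 : ℝ) (L ^ 2))
      ((volume.restrict (Ioi (0 : ℝ))).prod (volume.restrict (Ioi (0 : ℝ)))) := by
    rw [Measure.prod_restrict]
    exact hI1.mono_measure Measure.restrict_le_self
  refine ⟨hI2.integrable_indicator hms, ?_⟩
  have hres : ((volume.restrict (Ioi (0 : ℝ))).restrict (Ioc (0 : ℝ) (L ^ 2))) =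
      volume.restrict (Ioc (0 : ℝ) (L ^ 2)) := by
    rw [Measure.restrict_restrict measurableSet_Ioc]
    congr 1
    exact inter_eq_left.mpr Ioc_subset_Ioi_self
  rw [integral_indicator hms, ← Measure.prod_restrict, hres]
  have hI3 : Integrable (fun p : ℝ × ℝ => mf L p.1 p.2)
      ((volume.restrict (Ioc (0 : ℝ) (L ^ 2))).prod (volume.restrict (Ioc (0 : ℝ) (L ^ 2)))) := by
    rw [Measure.prod_restrict]
    exact hI1
  rw [integral_prod _ hI3]
  have hR : 0 ≤ L ^ 2 := by positivity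
  have e1 : (∫ x in Ioc (0 : ℝ) (L ^ 2), ∫ y in Ioc (0 : ℝ) (L ^ 2), mf L (x, y).1 (x, y).2) =
      L ^ 4 / (4 * Real.pi ^ 2) *
        ∫ t in (0 : ℝ)..(L ^ 2), ∫ s in (0 : ℝ)..(L ^ 2), t * s / (1 + t + s) ^ 4 := by
    rw [intervalIntegral.integral_of_le hR, ← integral_const_mul]
    apply integral_congr_ae
    filter_upwards with t
    rw [intervalIntegral.integral_of_le hR, ← integral_const_mul]
    rfl
  rw [e1, ← mul_sub, abs_mul, abs_of_nonneg (by positivity : 0 ≤ L ^ 4 / (4 * Real.pi ^ 2))]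
  have h1 := main_int (R := L ^ 2) (one_le_pow₀ hL)
  calc L ^ 4 / (4 * Real.pi ^ 2) * _ ≤ L ^ 4 / (4 * Real.pi ^ 2) * 1 :=
        mul_le_mul_of_nonneg_left h1 (by positivity)
    _ = _ := mul_one _

/-- **Task AF-I** (the logarithm, magnetic part). -/
theorem ti (hH : S_H) : S_I := by
  obtain ⟨D, H⟩ := hb_of hH
  intro C0 hC0
  have hC00 : 0 ≤ C0 := by linarith
  have hD := H.one
  obtain ⟨I0, hI0⟩ : ∃ I0, I0 = (∫ t in Ioi (0 : ℝ), gf t) + ∫ t in Ioi (0 : ℝ), vf t := ⟨_, rfl⟩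
  obtain ⟨K1, hK1⟩ : ∃ K1, K1 = 4 * (4 * C0 * (D + 2 * C0) ^ 3 + C0 * D * (D + 2 * C0) ^ 2 +
        2 * C0 * (D + 2 * C0) * D ^ 2) + 48 * D ^ 4 := ⟨_, rfl⟩
  obtain ⟨K2, hK2⟩ : ∃ K2, K2 = C0 ^ 3 * (D + C0) := ⟨_, rfl⟩
  have hK10 : 0 ≤ K1 := by rw [hK1]; positivity
  have hK20 : 0 ≤ K2 := by rw [hK2]; positivity
  obtain ⟨K, hK⟩ : ∃ K, K = K1 + (K2 + 4) := ⟨_, rfl⟩
  refine ⟨1 / 2 * (K * I0 ^ 2) + 1, ?_⟩
  intro n hn a b c d hac hbc htr ha ha' hb
  obtain ⟨L, hL⟩ : ∃ L : ℝ, L = (n : ℝ) := ⟨_, rfl⟩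
  have hL1 : 1 ≤ L := by
    rw [hL]
    have : (2 : ℝ) ≤ n := by exact_mod_cast hn
    linarith
  rw [← hL] at ha ha' hb ⊢
  obtain ⟨hcc, hcd, hc, hd, hlc, hld⟩ := htr
  rw [← hL] at hc hd hlc hld
  have hL0 : 0 < L := by linarith
  obtain ⟨M, hM⟩ : ∃ M : ℝ × ℝ → ℝ, M = (Ioc (0 : ℝ) (L ^ 2) ×ˢ Ioc (0 : ℝ) (L ^ 2)).indicator
      (fun p : ℝ × ℝ => mf L p.1 p.2) := ⟨_, rfl⟩
  obtain ⟨F, hF⟩ : ∃ F : ℝ × ℝ → ℝ, F = fun p => a p.1 p.2 * b p.1 p.2 * c (p.1 + p.2) *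
      d (p.1 + p.2) := ⟨_, rfl⟩
  obtain ⟨G, hG⟩ : ∃ G : ℝ × ℝ → ℝ, G = fun p => K * (L ^ 2 * (uf L p.1 * uf L p.2)) := ⟨_, rfl⟩
  obtain ⟨hMi, hMv⟩ := int_mf hL1
  rw [← hM] at hMi hMv
  -- the pointwise bound
  have pw : ∀ p : ℝ × ℝ, 0 < p.1 → 0 < p.2 → ‖F p - M p‖ ≤ G p := by
    rintro ⟨t, s⟩ ht hs
    simp only at ht hs
    have hu : 0 ≤ L ^ 2 * (uf L t * uf L s) := by
      have h1 := uf_nonneg hL0 ht.le
      have h2 := uf_nonneg hL0 hs.le
      positivity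
    rw [Real.norm_eq_abs, hF, hG]
    simp only
    rcases le_total (t + s) (L ^ 2) with h | h
    · have hMe : M (t, s) = mf L t s := by
        rw [hM, indicator_of_mem]
        exact ⟨⟨ht, by simp only; linarith⟩, ⟨hs, by simp only; linarith⟩⟩
      rw [hMe]
      have h1 := reg1 H hC00 hL1 ht hs h (ha t s ht.le hs.le) (hb t s ht.le hs.le)
        (hc (t + s) (by positivity)) (hd (t + s) (by positivity))
      rw [← hK1] at h1
      refine h1.trans (mul_le_mul_of_nonneg_right ?_ hu)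
      rw [hK]; linarith
    · have h1 := reg2 H hC00 hL1 ht hs h (ha' t s ht.le hs.le h) (hb t s ht.le hs.le)
        (hlc (t + s) h) (hld (t + s) h)
      rw [← hK2] at h1
      have h2 : |M (t, s)| ≤ 4 * (L ^ 2 * (uf L t * uf L s)) := by
        by_cases hm : (t, s) ∈ Ioc (0 : ℝ) (L ^ 2) ×ˢ Ioc (0 : ℝ) (L ^ 2)
        · rw [hM, indicator_of_mem hm]
          exact reg3 hL1 ht hs h hm.1.2 hm.2.2
        · rw [hM, indicator_of_notMem hm, abs_zero]
          positivity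
      have h3 : |a t s * b t s * c (t + s) * d (t + s) - M (t, s)| ≤
          |a t s * b t s * c (t + s) * d (t + s)| + |M (t, s)| := abs_sub _ _
      refine h3.trans ?_
      have h4 : K1 * (L ^ 2 * (uf L t * uf L s)) ≥ 0 := mul_nonneg hK10 hu
      rw [hK]
      nlinarith
  have hae : ∀ᵐ p ∂((volume.restrict (Ioi (0 : ℝ))).prod (volume.restrict (Ioi (0 : ℝ)))),
      ‖F p - M p‖ ≤ G p := by
    rw [Measure.prod_restrict]
    filter_upwards [ae_restrict_mem (measurableSet_Ioi.prod measurableSet_Ioi)] with p hp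
    exact pw p hp.1 hp.2
  have hui : Integrable (uf L) (volume.restrict (Ioi (0 : ℝ))) := uf_int hL0
  have hGi : Integrable G ((volume.restrict (Ioi (0 : ℝ))).prod (volume.restrict (Ioi (0 : ℝ)))) := by
    rw [hG]
    exact ((hui.mul_prod hui).const_mul (L ^ 2)).const_mul K
  have hGv : ∫ p, G p ∂((volume.restrict (Ioi (0 : ℝ))).prod (volume.restrict (Ioi (0 : ℝ)))) =
      K * I0 ^ 2 * L ^ 4 := by
    rw [hG]
    simp only
    rw [integral_const_mul, integral_const_mul, integral_prod_mul, uf_integral hL0, ← hI0]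
    ring
  have hFc : Continuous F := by
    rw [hF]
    have h1 : Continuous fun p : ℝ × ℝ => a p.1 p.2 := hac
    have h2 : Continuous fun p : ℝ × ℝ => b p.1 p.2 := hbc
    exact ((h1.mul h2).mul (hcc.comp (continuous_fst.add continuous_snd))).mul
      (hcd.comp (continuous_fst.add continuous_snd))
  have hFM : Integrable (fun p => F p - M p)
      ((volume.restrict (Ioi (0 : ℝ))).prod (volume.restrict (Ioi (0 : ℝ)))) :=
    hGi.mono' (hFc.aestronglyMeasurable.sub hMi.aestronglyMeasurable) hae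
  have hFi : Integrable F
      ((volume.restrict (Ioi (0 : ℝ))).prod (volume.restrict (Ioi (0 : ℝ)))) := by
    have := hFM.add hMi
    refine this.congr ?_
    filter_upwards with p
    simp
  have hFv : (∫ t in Ioi (0 : ℝ), ∫ s in Ioi (0 : ℝ), a t s * b t s * c (t + s) * d (t + s)) =
      ∫ p, F p ∂((volume.restrict (Ioi (0 : ℝ))).prod (volume.restrict (Ioi (0 : ℝ)))) := by
    rw [integral_prod _ hFi, hF]
  have h1 := norm_integral_le_of_norm_le hGi hae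
  rw [integral_sub hFi hMi, hGv, Real.norm_eq_abs, ← hFv] at h1
  obtain ⟨IF, hIF⟩ : ∃ IF, IF = ∫ t in Ioi (0 : ℝ), ∫ s in Ioi (0 : ℝ),
      a t s * b t s * c (t + s) * d (t + s) := ⟨_, rfl⟩
  obtain ⟨IM, hIM⟩ : ∃ IM, IM = ∫ p, M p ∂((volume.restrict (Ioi (0 : ℝ))).prod
      (volume.restrict (Ioi (0 : ℝ)))) := ⟨_, rfl⟩
  rw [← hIF, ← hIM] at h1
  rw [← hIM] at hMv
  rw [← hIF]
  have hlog : Real.log (L ^ 2) = 2 * Real.log L := by
    rw [Real.log_pow]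
    norm_num
  rw [hlog] at hMv
  have hpi := Real.pi_gt_three
  have e1 : L ^ 4 / (4 * Real.pi ^ 2) * (1 / 6 * (2 * Real.log L)) =
      2 * (1 / (24 * Real.pi ^ 2) * (L ^ 4 * Real.log L)) := by
    field_simp
    ring
  rw [e1] at hMv
  have e2 : L ^ 4 / (4 * Real.pi ^ 2) ≤ L ^ 4 := by
    apply div_le_self (by positivity)
    nlinarith
  have e3 : 1 / 2 * IF - 1 / (24 * Real.pi ^ 2) * (L ^ 4 * Real.log L) = 1 / 2 * (IF - IM) +
      1 / 2 * (IM - 2 * (1 / (24 * Real.pi ^ 2) * (L ^ 4 * Real.log L))) := by ring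
  rw [e3]
  refine (abs_add_le _ _).trans ?_
  rw [abs_mul, abs_mul, abs_of_pos (by norm_num : (0 : ℝ) < 1 / 2)]
  nlinarith

end

end Pool.Agent.H245.AF
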